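import Pool.Agent.H32.RigidExp

set_option autoImplicit false

namespace Pool.Agent.Results.MP_e534f3_co.Rigid

open Pool.Agent.H32.RigidExp Classical Filter

/-- A 79-regular expander sequence none of whose members is movable. -/
theorem result : ∃ (V : ℕ → Type) (_ : ∀ n, Fintype (V n)) (Γ : ∀ n, SimpleGraph (V n)),
    (∀ n, (Γ n).Connected ∧ (Γ n).IsRegularOfDegree 79) ∧
    Tendsto (fun n => Fintype.card (V n)) atTop atTop ∧
    (∃ ε : ℝ, 0 < ε ∧ ∀ n (S : Finset (V n)), 2 * S.card ≤ Fintype.card (V n) →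
      ε * S.card ≤ bd (Γ n) S) ∧
    ∀ n, ¬ Movable (Γ n) := by
  choose τ hτ using fun n => Pool.Agent.H86.Roe.exists_exp (n + 3) (by omega)
  have hτ' : ∀ n, @Pool.Agent.H86.Roe.Exp _ _ (fun a b => propDecidable (a = b)) (τ n) :=
    fun n => by
      have := hτ n
      rwa [Subsingleton.elim (instDecidableEqFin _) fun a b => propDecidable (a = b)] at this
  have a0 : ∀ n, (G (τ n)).Adj (0, 0, false, false) (0, 0, false, true) := fun n =>
    ⟨by simp, by simp [f]⟩
  refine ⟨fun n => Fin (n + 3) × C, inferInstance, fun n => G (τ n), fun n => ⟨?_, ?_⟩, ?_,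
    ⟨1 / 32160, by norm_num, fun n S hS => ?_⟩, fun n =>
      not_mov _ _ _ (a0 n) fun P => closure (τ n) (hτ' n) 0 P⟩
  · have r := closure (τ n) (hτ' n) 0 ((G (τ n)).Reachable (0, 0, false, false)) .rfl
      (a0 n).reachable fun a b c _ h _ p _ => p.trans h.symm.reachable
    exact ⟨fun u v => (r u).symm.trans (r v)⟩
  · intro v
    have := reg (τ n) v
    rw [← SimpleGraph.card_neighborSet_eq_degree, ← Nat.card_eq_fintype_card] at this ⊢
    exact this
  · refine tendsto_atTop_mono (fun n => ?_) tendsto_id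
    simp; omega
  · have : (S.card : ℝ) ≤ 32160 * bd (G (τ n)) S := by exact_mod_cast expand (τ n) (hτ' n) S hS
    linarith

end Pool.Agent.Results.MP_e534f3_co.Rigid
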